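import Pool.Agent.J6H54.CH.Stm

/-!
# CH-14: size of the boxes
-/

set_option autoImplicit false

namespace Pool.Agent.J6H94.CH14

open Pool.Agent.J6H54.CH Finset

variable {Λ : Type} [AddCommGroup Λ] {σ : Λ ≃ₗ[ℤ] Λ} {T : Finset (Λ × ℤ)} {p q : Λ → ℝ}
  {κ M C0 : ℝ}

theorem pow_ne {x : Λ} (hx : x ≠ 0) (m : ℤ) : (σ ^ m) x ≠ 0 := by
  intro h
  apply hx
  have h1 := pow_neg_pow (σ := σ) m x
  rw [h, map_zero] at h1
  exact h1.symm

theorem q_pos (H : Hyp σ p q κ M C0) {x : Λ} (hx : x ≠ 0) : 0 < q x := by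
  by_contra hq
  have hq0 : q x = 0 := le_antisymm (not_lt.1 hq) (H.q_nonneg x)
  have hqn : ∀ n : ℕ, q ((σ ^ (-(n : ℤ))) x) = 0 := by
    intro n
    induction n with
    | zero => simpa using hq0
    | succ n ih =>
      have e : (σ ^ (-((n + 1 : ℕ) : ℤ))) x = σ⁻¹ ((σ ^ (-(n : ℤ))) x) := by
        have : (-((n + 1 : ℕ) : ℤ)) = -1 + -(n : ℤ) := by push_cast; ring
        rw [this, pow_add_apply]; simp
      have h1 := H.q_grow ((σ ^ (-(n : ℤ))) x)
      rw [ih, mul_zero] at h1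
      rw [e]
      exact le_antisymm h1 (H.q_nonneg _)
  have hpos : ∀ n : ℕ, 0 < p ((σ ^ (-(n : ℤ))) x) := by
    intro n
    rcases (H.p_nonneg ((σ ^ (-(n : ℤ))) x)).eq_or_lt with h | h
    · exact absurd (H.sep _ h.symm (hqn n)) (pow_ne hx _)
    · exact h
  have hpx : 0 < p x := by simpa using hpos 0
  have hfin : (Set.range fun n : ℕ => (σ ^ (-(n : ℤ))) x).Finite := by
    refine (H.fin (p x)).subset ?_
    rintro _ ⟨n, rfl⟩
    refine ⟨(H.p_pow n x).trans ?_, ?_⟩
    · exact mul_le_of_le_one_left hpx.le (pow_le_one₀ H.κ_pos.le H.κ_lt.le)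
    · change q ((σ ^ (-(n : ℤ))) x) ≤ p x
      rw [hqn n]
      exact hpx.le
  obtain ⟨_, ⟨n0, rfl⟩, hmin⟩ := Set.exists_min_image _ p hfin ⟨_, ⟨0, rfl⟩⟩
  obtain ⟨n, hn⟩ := exists_pow_lt_of_lt_one (div_pos (hpos n0) hpx) H.κ_lt
  rw [lt_div_iff₀ hpx] at hn
  have h1 : p ((σ ^ (-(n0 : ℤ))) x) ≤ p ((σ ^ (-(n : ℤ))) x) := hmin _ ⟨n, rfl⟩
  have h2 := H.p_pow n x
  linarith

theorem reduce_some {α : Type} (w : List α) : (w.map some).reduceOption = w := by
  induction w with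
  | nil => rfl
  | cons a w ih => rw [List.map_cons, List.reduceOption_cons_of_some, ih]

theorem box_card (hT : Gen σ T) (C : ℝ) (h L : ℕ)
    (hL : ∀ v ∈ bx σ p q C h, len σ T (v, (h : ℤ)) ≤ L) :
    (bx σ p q C h).card ≤ (T.card + 1) ^ L := by
  classical
  have hsub : bx σ p q C h ⊆ (univ : Finset (List.Vector (Option {x // x ∈ T}) L)).image
      (fun u => (val σ (u.1.reduceOption.map Subtype.val)).1) := by
    intro v hv
    obtain ⟨w, hw, hval, hlen⟩ := exists_geo hT (v, (h : ℤ))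
    have hl : w.length ≤ L := hlen ▸ hL v hv
    rw [mem_image]
    refine ⟨⟨(w.attachWith (· ∈ T) hw).map some ++ List.replicate (L - w.length) none, ?_⟩,
      mem_univ _, ?_⟩
    · rw [List.length_append, List.length_map, List.length_attachWith, List.length_replicate]
      omega
    · change (val σ ((((w.attachWith (· ∈ T) hw).map some ++
        List.replicate (L - w.length) none).reduceOption).map Subtype.val)).1 = v
      rw [List.reduceOption_append, reduce_some, List.reduceOption_replicate_none,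
        List.append_nil, List.attachWith_map_subtype_val, hval]
  refine (card_le_card hsub).trans (card_image_le.trans (le_of_eq ?_))
  rw [card_univ, card_vector, Fintype.card_option, Fintype.card_coe]

theorem m14 : S_box := by
  classical
  intro Λ _ σ T p q κ M C0 C C' H hT hC hlen
  refine ⟨fun h => box_card hT C h _ (hlen h), fun n => ?_⟩
  obtain ⟨x, hx⟩ := H.nontriv
  have hC0 : 0 < C := by linarith [H.one_le_C0]
  -- the height
  obtain ⟨i0, hi0⟩ := exists_pow_lt_of_lt_one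
    (div_pos hC0 (show (0 : ℝ) < p x + q x + 1 by linarith [H.p_nonneg x, H.q_nonneg x])) H.κ_lt
  rw [lt_div_iff₀ (by linarith [H.p_nonneg x, H.q_nonneg x])] at hi0
  have hk : 0 ≤ κ ^ i0 := pow_nonneg H.κ_pos.le _
  have hple : ∀ j, i0 ≤ j → κ ^ j * p x ≤ C := by
    intro j hj
    have h1 : κ ^ j ≤ κ ^ i0 := pow_le_pow_of_le_one H.κ_pos.le H.κ_lt.le hj
    have h2 := mul_le_mul_of_nonneg_right h1 (H.p_nonneg x)
    nlinarith [H.q_nonneg x]
  have hqle : ∀ j, i0 ≤ j → κ ^ j * q x ≤ C := by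
    intro j hj
    have h1 : κ ^ j ≤ κ ^ i0 := pow_le_pow_of_le_one H.κ_pos.le H.κ_lt.le hj
    have h2 := mul_le_mul_of_nonneg_right h1 (H.q_nonneg x)
    nlinarith [H.p_nonneg x]
  have hanti : StrictAnti fun i : ℕ => q ((σ ^ (i : ℤ)) x) := by
    apply strictAnti_nat_of_succ_lt
    intro i
    have e : (σ ^ ((i + 1 : ℕ) : ℤ)) x = σ ((σ ^ (i : ℤ)) x) := by
      have : ((i + 1 : ℕ) : ℤ) = 1 + (i : ℤ) := by push_cast; ring
      rw [this, pow_add_apply]; simp
    rw [e]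
    have h1 := H.q_contr ((σ ^ (i : ℤ)) x)
    have h2 := q_pos H (pow_ne (σ := σ) hx (i : ℤ))
    have h3 := H.κ_lt
    nlinarith
  refine ⟨i0 + n + i0, ?_⟩
  have hsub : (range n).image (fun i : ℕ => (σ ^ ((i0 + i : ℕ) : ℤ)) x) ⊆
      bx σ p q C (i0 + n + i0) := by
    intro v hv
    rw [mem_image] at hv
    obtain ⟨i, hi, rfl⟩ := hv
    rw [mem_range] at hi
    rw [mem_bx H]
    constructor
    · exact (H.q_pow (i0 + i) x).trans (hqle _ (by omega))
    · rw [← pow_add_apply]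
      have e : (-((i0 + n + i0 : ℕ) : ℤ) + ((i0 + i : ℕ) : ℤ)) = -((i0 + (n - i) : ℕ) : ℤ) := by
        push_cast [Nat.cast_sub hi.le]
        ring
      rw [e]
      exact (H.p_pow (i0 + (n - i)) x).trans (hple _ (by omega))
  have hcard : ((range n).image (fun i : ℕ => (σ ^ ((i0 + i : ℕ) : ℤ)) x)).card = n := by
    rw [card_image_of_injective, card_range]
    intro i j hij
    have h1 := hanti.injective (congrArg q hij : (fun i : ℕ => q ((σ ^ (i : ℤ)) x)) (i0 + i) =
      (fun i : ℕ => q ((σ ^ (i : ℤ)) x)) (i0 + j))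
    omega
  exact hcard.ge.trans (card_le_card hsub)

end Pool.Agent.J6H94.CH14
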